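import Mathlib

/-!
The 3-sun: a graph edge joining two vertices of the `θ₂`-eigenpolytope that is not an edge of
the polytope.
-/

namespace Pool.Agent.Results.MP_0d5a8e_co.ThreeSun

open Matrix Module

/-- the `θ`-eigenspace of a real matrix -/
noncomputable def eigSpace {V : Type} [Fintype V] [DecidableEq V] (A : Matrix V V ℝ) (θ : ℝ) :
    Submodule ℝ (V → ℝ) :=
  Module.End.eigenspace (Matrix.toLin' A) θ

/-- `θ` is the second largest distinct eigenvalue of `A`: it is an eigenvalue and exactly one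
eigenvalue is larger. -/
def IsSecondLargest {V : Type} [Fintype V] [DecidableEq V] (A : Matrix V V ℝ) (θ : ℝ) : Prop :=
  Module.End.HasEigenvalue (Matrix.toLin' A) θ ∧
    {μ : ℝ | Module.End.HasEigenvalue (Matrix.toLin' A) μ ∧ θ < μ}.ncard = 1

/-- the point `v_i`: the `i`-th row of the matrix whose columns are the basis `b` of the
eigenspace -/
noncomputable def row {V : Type} [Fintype V] [DecidableEq V] {A : Matrix V V ℝ} {θ : ℝ} {d : ℕ}
    (b : Basis (Fin d) ℝ (eigSpace A θ)) (i : V) : Fin d → ℝ :=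
  fun k => (b k : V → ℝ) i

/-- the `θ`-eigenpolytope, computed in the basis `b` -/
def polytope {V : Type} [Fintype V] [DecidableEq V] {A : Matrix V V ℝ} {θ : ℝ} {d : ℕ}
    (b : Basis (Fin d) ℝ (eigSpace A θ)) : Set (Fin d → ℝ) :=
  convexHull ℝ (Set.range (row b))

/-- the 3-sun: a triangle `3,4,5` and three further vertices `0 ~ 3,4`, `1 ~ 3,5`, `2 ~ 4,5` -/
def mask : Fin 6 → ℕ := ![24, 40, 48, 51, 45, 30]

def sun : SimpleGraph (Fin 6) where
  Adj i j := (mask i).testBit j.val = true
  symm := ⟨by decide +kernel⟩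
  loopless := ⟨by decide +kernel⟩

instance : DecidableRel sun.Adj :=
  fun i j => inferInstanceAs (Decidable ((mask i).testBit j.val = true))

lemma sun_connected : sun.Connected := by
  have h : ∀ v, v = 3 ∨ sun.Adj 3 v ∨ ∃ w, sun.Adj 3 w ∧ sun.Adj w v := by decide +kernel
  have h0 : ∀ v, sun.Reachable 3 v := by
    intro v
    rcases h v with rfl | h1 | ⟨w, h1, h2⟩
    · exact SimpleGraph.Reachable.refl _
    · exact h1.reachable
    · exact h1.reachable.trans h2.reachable
  haveI : Nonempty (Fin 6) := ⟨0⟩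
  exact SimpleGraph.Connected.mk fun u v => (h0 u).symm.trans (h0 v)

def adjZ : Matrix (Fin 6) (Fin 6) ℤ := Matrix.of
  ![![0, 0, 0, 1, 1, 0], ![0, 0, 0, 1, 0, 1], ![0, 0, 0, 0, 1, 1],
    ![1, 1, 0, 0, 1, 1], ![1, 0, 1, 1, 0, 1], ![0, 1, 1, 1, 1, 0]]

lemma adjZ_eq : ∀ i j, (if sun.Adj i j then (1 : ℤ) else 0) = adjZ i j := by decide +kernel

/-- the matrix -/
noncomputable abbrev A : Matrix (Fin 6) (Fin 6) ℝ := sun.adjMatrix ℝ

lemma A_apply (i j : Fin 6) : A i j = (adjZ i j : ℝ) := by
  rw [← adjZ_eq]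
  show (sun.adjMatrix ℝ) i j = _
  rw [SimpleGraph.adjMatrix_apply]
  push_cast
  rfl

lemma mulVec_iff (x : Fin 6 → ℝ) (μ : ℝ) : A *ᵥ x = μ • x ↔
    (x 3 + x 4 = μ * x 0 ∧ x 3 + x 5 = μ * x 1 ∧ x 4 + x 5 = μ * x 2 ∧
      x 0 + x 1 + x 4 + x 5 = μ * x 3 ∧ x 0 + x 2 + x 3 + x 5 = μ * x 4 ∧
      x 1 + x 2 + x 3 + x 4 = μ * x 5) := by
  have key : ∀ i, (A *ᵥ x) i = ∑ j, (adjZ i j : ℝ) * x j := by
    intro i
    rw [Matrix.mulVec, dotProduct]
    exact Finset.sum_congr rfl fun j _ => by rw [A_apply]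
  constructor
  · intro h
    have h' : ∀ i, ∑ j, (adjZ i j : ℝ) * x j = μ * x i := by
      intro i
      rw [← key, h, Pi.smul_apply, smul_eq_mul]
    have h0 := h' 0
    have h1 := h' 1
    have h2 := h' 2
    have h3 := h' 3
    have h4 := h' 4
    have h5 := h' 5
    simp [Fin.sum_univ_six, adjZ] at h0 h1 h2 h3 h4 h5
    refine ⟨?_, ?_, ?_, ?_, ?_, ?_⟩ <;> linarith
  · rintro ⟨h0, h1, h2, h3, h4, h5⟩
    funext i
    rw [key, Pi.smul_apply, smul_eq_mul]
    fin_cases i <;> simp [Fin.sum_univ_six, adjZ] <;> linarith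

lemma mem_eig (x : Fin 6 → ℝ) (μ : ℝ) : x ∈ eigSpace A μ ↔ A *ᵥ x = μ • x := by
  rw [eigSpace, Module.End.mem_eigenspace_iff, Matrix.toLin'_apply]

/-- the second eigenvalue `(√5 - 1)/2` -/
noncomputable def θ : ℝ := (Real.sqrt 5 - 1) / 2

lemma s5 : Real.sqrt 5 ^ 2 = 5 := Real.sq_sqrt (by norm_num)

lemma s5_lo : 2.2 < Real.sqrt 5 := by
  have h := s5
  have h0 := Real.sqrt_nonneg 5
  nlinarith

lemma s5_hi : Real.sqrt 5 < 2.3 := by
  have h := s5
  have h0 := Real.sqrt_nonneg 5
  nlinarith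

lemma θ_eq : θ ^ 2 + θ - 1 = 0 := by
  have h := s5
  rw [θ]
  linear_combination h / 4

lemma θ_lo : 0.6 < θ := by
  have h := s5_lo
  rw [θ]
  linarith

lemma θ_hi : θ < 0.65 := by
  have h := s5_hi
  rw [θ]
  linarith

/-- eigenvectors for `θ` -/
noncomputable def vec (p q : ℝ) : Fin 6 → ℝ :=
  ![(θ + 1) * (p + q), -(θ + 1) * q, -(θ + 1) * p, p, q, -p - q]

lemma vec_mem (p q : ℝ) : vec p q ∈ eigSpace A θ := by
  rw [mem_eig, mulVec_iff]
  have h := θ_eq
  simp only [vec, Matrix.cons_val_zero, Matrix.cons_val_one, Matrix.cons_val]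
  refine ⟨?_, ?_, ?_, ?_, ?_, ?_⟩
  · linear_combination (-(p + q)) * h
  · linear_combination q * h
  · linear_combination p * h
  · ring
  · ring
  · ring

/-- linear relations satisfied by all eigenvectors for `θ` -/
lemma relations {x : Fin 6 → ℝ} (hx : x ∈ eigSpace A θ) :
    x 3 + x 4 = -x 5 ∧ x 0 = -(θ + 1) * x 5 := by
  rw [mem_eig, mulVec_iff] at hx
  obtain ⟨h0, h1, h2, h3, h4, h5⟩ := hx
  have h := θ_eq
  have hlo := θ_lo
  have hhi := θ_hi
  have hs : (x 3 + x 4 + x 5) * (θ ^ 2 - 2 * θ - 4) = 0 := by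
    linear_combination (-2 : ℝ) * (h0 + h1 + h2) - θ * (h3 + h4 + h5)
  have hne : θ ^ 2 - 2 * θ - 4 ≠ 0 := by
    intro h'
    nlinarith
  have hsum : x 3 + x 4 + x 5 = 0 := (mul_eq_zero.1 hs).resolve_right hne
  refine ⟨by linarith, ?_⟩
  have hθ : θ ≠ 0 := by
    intro h'
    rw [h'] at hlo
    norm_num at hlo
  have e1 : θ * x 0 = -x 5 := by linarith
  have e2 : θ * (x 0 + (θ + 1) * x 5) = 0 := by linear_combination e1 + x 5 * h
  have e3 := (mul_eq_zero.1 e2).resolve_left hθ
  linarith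

lemma hasEig_iff (μ : ℝ) : Module.End.HasEigenvalue (Matrix.toLin' A) μ ↔
    ∃ x : Fin 6 → ℝ, x ≠ 0 ∧ A *ᵥ x = μ • x := by
  constructor
  · intro h
    obtain ⟨x, hx⟩ := h.exists_hasEigenvector
    refine ⟨x, hx.2, ?_⟩
    have := hx.apply_eq_smul
    rwa [Matrix.toLin'_apply] at this
  · rintro ⟨x, hx, h⟩
    exact Module.End.hasEigenvalue_of_hasEigenvector (x := x)
      ⟨Module.End.mem_eigenspace_iff.mpr (by rw [Matrix.toLin'_apply, h]), hx⟩

lemma second : IsSecondLargest A θ := by
  have hlo := θ_lo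
  have hhi := θ_hi
  have h := θ_eq
  refine ⟨?_, ?_⟩
  · rw [hasEig_iff]
    refine ⟨vec 1 0, ?_, (mem_eig _ _).1 (vec_mem 1 0)⟩
    intro h0
    have := congrFun h0 3
    simp [vec] at this
  · rw [Set.ncard_eq_one]
    refine ⟨1 + Real.sqrt 5, ?_⟩
    have hs := s5
    have hslo := s5_lo
    have hshi := s5_hi
    ext μ
    rw [Set.mem_singleton_iff]
    constructor
    · rintro ⟨h1, h2⟩
      rw [hasEig_iff] at h1
      obtain ⟨x, hx, hA⟩ := h1
      rw [mulVec_iff] at hA
      obtain ⟨h0, h1, h3, h4, h5, h6⟩ := hA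
      by_contra hne
      apply hx
      have hμ1 : μ ^ 2 - 2 * μ - 4 ≠ 0 := by
        intro h'
        have h7 : (μ - (1 + Real.sqrt 5)) * (μ - (1 - Real.sqrt 5)) = 0 := by
          linear_combination h' - hs
        rcases mul_eq_zero.1 h7 with h8 | h8
        · exact hne (by linarith)
        · have : μ = 1 - Real.sqrt 5 := by linarith
          linarith
      have hμ2 : μ ^ 2 + μ - 1 ≠ 0 := by
        intro h'
        nlinarith
      have hμ0 : μ ≠ 0 := by
        intro h'
        linarith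
      have hs1 : (x 3 + x 4 + x 5) * (μ ^ 2 - 2 * μ - 4) = 0 := by
        linear_combination (-2 : ℝ) * (h0 + h1 + h3) - μ * (h4 + h5 + h6)
      have hsum := (mul_eq_zero.1 hs1).resolve_right hμ1
      have g5 : x 5 * (μ ^ 2 + μ - 1) = 0 := by
        linear_combination (-1 : ℝ) * h1 - h3 - μ * h6 + (1 + μ) * hsum
      have g4 : x 4 * (μ ^ 2 + μ - 1) = 0 := by
        linear_combination (-1 : ℝ) * h0 - h3 - μ * h5 + (1 + μ) * hsum
      have g3 : x 3 * (μ ^ 2 + μ - 1) = 0 := by
        linear_combination (-1 : ℝ) * h0 - h1 - μ * h4 + (1 + μ) * hsum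
      have z5 := (mul_eq_zero.1 g5).resolve_right hμ2
      have z4 := (mul_eq_zero.1 g4).resolve_right hμ2
      have z3 := (mul_eq_zero.1 g3).resolve_right hμ2
      rw [z3, z4, add_zero] at h0
      rw [z3, z5, add_zero] at h1
      rw [z4, z5, add_zero] at h3
      have z0 := (mul_eq_zero.1 h0.symm).resolve_left hμ0
      have z1 := (mul_eq_zero.1 h1.symm).resolve_left hμ0
      have z2 := (mul_eq_zero.1 h3.symm).resolve_left hμ0
      funext i
      fin_cases i
      · exact z0
      · exact z1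
      · exact z2
      · exact z3
      · exact z4
      · exact z5
    · rintro rfl
      refine ⟨?_, by linarith⟩
      rw [hasEig_iff]
      refine ⟨![2, 2, 2, 1 + Real.sqrt 5, 1 + Real.sqrt 5, 1 + Real.sqrt 5], ?_, ?_⟩
      · intro h0
        have := congrFun h0 0
        simp at this
      · rw [mulVec_iff]
        simp only [Matrix.cons_val_zero, Matrix.cons_val_one, Matrix.cons_val]
        refine ⟨by ring, by ring, by ring, ?_, ?_, ?_⟩ <;> linear_combination (-1 : ℝ) * hs

/-- linear functionals coming from eigenvectors -/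
lemma functional {d : ℕ} (b : Basis (Fin d) ℝ (eigSpace A θ)) {y : Fin 6 → ℝ}
    (hy : y ∈ eigSpace A θ) : ∃ l : (Fin d → ℝ) →ₗ[ℝ] ℝ, ∀ i, l (row b i) = y i := by
  refine ⟨∑ k, (b.repr ⟨y, hy⟩ k) • LinearMap.proj k, fun i => ?_⟩
  have h1 := congrArg (fun z : eigSpace A θ => (z : Fin 6 → ℝ) i) (b.sum_repr ⟨y, hy⟩)
  simp only [Submodule.coe_sum, Submodule.coe_smul, Finset.sum_apply, Pi.smul_apply,
    smul_eq_mul] at h1
  rw [← h1]
  simp [row]

lemma extreme_of {E : Type} [AddCommGroup E] [Module ℝ E] {ι : Type} (v : ι → E) (i : ι)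
    (l : E →ₗ[ℝ] ℝ) (h : ∀ j, v j = v i ∨ l (v j) < l (v i)) :
    v i ∈ (convexHull ℝ (Set.range v)).extremePoints ℝ := by
  have hK : convexHull ℝ (Set.range v) ⊆ {y | y = v i ∨ l y < l (v i)} := by
    apply convexHull_min
    · rintro _ ⟨j, rfl⟩
      exact h j
    · intro x hx y hy a b ha hb hab
      rcases hx with rfl | hx
      · rcases hy with rfl | hy
        · left
          rw [← add_smul, hab, one_smul]
        · rcases hb.eq_or_lt with rfl | hb
          · left
            rw [add_zero] at hab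
            rw [hab, one_smul, zero_smul, add_zero]
          · right
            rw [map_add, map_smul, map_smul, smul_eq_mul, smul_eq_mul]
            have e1 := mul_lt_mul_of_pos_left hy hb
            have e2 : l (v i) = a * l (v i) + b * l (v i) := by rw [← add_mul, hab, one_mul]
            linarith
      · rcases ha.eq_or_lt with rfl | ha
        · rw [zero_add] at hab
          rw [hab, one_smul, zero_smul, zero_add]
          exact hy
        · right
          have hy' : l y ≤ l (v i) := by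
            rcases hy with rfl | hy
            · exact le_rfl
            · exact hy.le
          rw [map_add, map_smul, map_smul, smul_eq_mul, smul_eq_mul]
          have e1 := mul_lt_mul_of_pos_left hx ha
          have e3 := mul_le_mul_of_nonneg_left hy' hb
          have e2 : l (v i) = a * l (v i) + b * l (v i) := by rw [← add_mul, hab, one_mul]
          linarith
  rw [mem_extremePoints]
  refine ⟨subset_convexHull ℝ _ ⟨i, rfl⟩, ?_⟩
  rintro x hx y hy ⟨a, b, ha, hb, hab, hxy⟩
  have hx' := hK hx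
  have hy' := hK hy
  have e := congrArg l hxy
  rw [map_add, map_smul, map_smul, smul_eq_mul, smul_eq_mul] at e
  have e2 : l (v i) = a * l (v i) + b * l (v i) := by rw [← add_mul, hab, one_mul]
  rcases hx' with hx' | hx'
  · rcases hy' with hy' | hy'
    · exact ⟨hx', hy'⟩
    · exfalso
      have e1 := mul_lt_mul_of_pos_left hy' hb
      rw [hx'] at e
      linarith
  · exfalso
    have e1 := mul_lt_mul_of_pos_left hx' ha
    rcases hy' with hy' | hy'
    · rw [hy'] at e
      linarith
    · have e3 := mul_lt_mul_of_pos_left hy' hb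
      linarith

/-- In the 3-sun (a connected graph on 6 vertices) the edge `34` joins two vertices of the
`θ₂`-eigenpolytope, but the segment between them is not a face of the polytope. -/
theorem result : ∃ (G : SimpleGraph (Fin 6)) (_ : DecidableRel G.Adj), G.Connected ∧
    ∃ θ : ℝ, IsSecondLargest (G.adjMatrix ℝ) θ ∧ ∃ i j : Fin 6, G.Adj i j ∧
      ∀ (d : ℕ) (b : Basis (Fin d) ℝ (eigSpace (G.adjMatrix ℝ) θ)),
        row b i ≠ row b j ∧ row b i ∈ (polytope b).extremePoints ℝ ∧
        row b j ∈ (polytope b).extremePoints ℝ ∧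
        ¬ IsExtreme ℝ (polytope b) (segment ℝ (row b i) (row b j)) := by
  refine ⟨sun, inferInstance, sun_connected, θ, second, 3, 4, by decide +kernel, ?_⟩
  intro d b
  have hlo := θ_lo
  have hhi := θ_hi
  obtain ⟨l1, hl1⟩ := functional b (vec_mem 1 (-1 / 2))
  obtain ⟨l2, hl2⟩ := functional b (vec_mem (-1 / 2) 1)
  obtain ⟨l3, hl3⟩ := functional b (vec_mem 1 1)
  refine ⟨?_, ?_, ?_, ?_⟩
  · intro h0
    have := congrArg l1 h0
    rw [hl1, hl1] at this
    simp [vec] at this
    norm_num at this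
  · apply extreme_of _ _ l1
    intro j
    rw [hl1, hl1]
    fin_cases j
    · right; simp [vec]; linarith
    · right; simp [vec]; linarith
    · right; simp [vec]; linarith
    · left; rfl
    · right; simp [vec]; norm_num
    · right; simp [vec]; norm_num
  · apply extreme_of _ _ l2
    intro j
    rw [hl2, hl2]
    fin_cases j
    · right; simp [vec]; linarith
    · right; simp [vec]; linarith
    · right; simp [vec]; linarith
    · right; simp [vec]; norm_num
    · left; rfl
    · right; simp [vec]; norm_num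
  · intro hext
    have hrel : ∀ k, row b 3 k + row b 4 k = -row b 5 k ∧ row b 0 k = -(θ + 1) * row b 5 k :=
      fun k => relations (b k).2
    have hm : (1 / 2 : ℝ) • row b 3 + (1 / 2 : ℝ) • row b 4 ∈
        segment ℝ (row b 3) (row b 4) := ⟨1 / 2, 1 / 2, by norm_num, by norm_num, by norm_num, rfl⟩
    have hpos : 0 < θ + 2 := by linarith
    have hopen : (1 / 2 : ℝ) • row b 3 + (1 / 2 : ℝ) • row b 4 ∈
        openSegment ℝ (row b 0) (row b 5) := by
      refine ⟨3 / (2 * (θ + 2)), 1 - 3 / (2 * (θ + 2)), by positivity, ?_, by ring, ?_⟩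
      · rw [sub_pos, div_lt_one (by positivity)]
        linarith
      · funext k
        obtain ⟨e1, e2⟩ := hrel k
        simp only [Pi.add_apply, Pi.smul_apply, smul_eq_mul]
        rw [e2]
        field_simp
        linear_combination (-(θ + 2)) * e1
    have h0 : row b 0 ∈ polytope b := subset_convexHull ℝ _ ⟨0, rfl⟩
    have h5 : row b 5 ∈ polytope b := subset_convexHull ℝ _ ⟨5, rfl⟩
    have h6 := hext.2 h0 h5 hm hopen
    obtain ⟨a, c, ha, hc, hac, h7⟩ := h6
    have h8 := congrArg l3 h7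
    rw [map_add, map_smul, map_smul, hl3, hl3, hl3] at h8
    simp [vec] at h8
    linarith

end Pool.Agent.Results.MP_0d5a8e_co.ThreeSun
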